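import Pool.Agent.Helper64.EC.Defs

/-!
Counting: a code of level `ξ` avoiding a family indexed by codes of level less than `ξ`, and
an uncountable fibre of a map of the index set into the first uncountable well-order.
-/

namespace Pool.Agent.Helper64.EC

open Pool.Agent.Helper73.Sym

/-- the index set below `ξ` -/
private abbrev BB (ξ : Om) : Type := Σ η : {η : Om // η < ξ}, J η.1

open Classical in
private noncomputable def pushC (ξ : Om) (a : Coh (BB ξ)) : Coh Idx :=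
  ⟨fun i n => if h : i.1 < ξ then a.f ⟨⟨i.1, h⟩, i.2⟩ n else none, by
    refine (a.fin.image (fun x : BB ξ × ℕ => ((⟨x.1.1.1, x.1.2⟩ : Idx), x.2))).subset ?_
    rintro ⟨i, n⟩ h
    have h' : (if h : i.1 < ξ then a.f ⟨⟨i.1, h⟩, i.2⟩ n else none) ≠ none := h
    by_cases h1 : i.1 < ξ
    · rw [dif_pos h1] at h'
      exact ⟨(⟨⟨i.1, h1⟩, i.2⟩, n), h', rfl⟩
    · rw [dif_neg h1] at h'
      exact absurd rfl h'⟩

private def pullC (ξ : Om) (a : Coh Idx) : Coh (BB ξ) :=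
  ⟨fun b n => a.f ⟨b.1.1, b.2⟩ n, by
    have hinj : Function.Injective (fun x : BB ξ × ℕ => ((⟨x.1.1.1, x.1.2⟩ : Idx), x.2)) := by
      rintro ⟨⟨⟨η, hη⟩, j⟩, n⟩ ⟨⟨⟨η', hη'⟩, j'⟩, n'⟩ h
      simp only [Prod.mk.injEq] at h
      obtain ⟨h1, h2⟩ := h
      have h3 := Sigma.mk.inj h1
      obtain ⟨h4, h5⟩ := h3
      subst h4
      subst h2
      rw [eq_of_heq h5]
    refine (a.fin.preimage hinj.injOn).subset ?_
    rintro ⟨b, n⟩ h
    exact h⟩

private theorem push_pull (ξ : Om) (a : Coh Idx) (ha : ∀ i ∈ a.supp, i.1 < ξ) :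
    pushC ξ (pullC ξ a) = a := by
  classical
  have key : ∀ i n, (pushC ξ (pullC ξ a)).f i n = a.f i n := by
    intro i n
    have h0 : (pushC ξ (pullC ξ a)).f i n =
        if h : i.1 < ξ then (pullC ξ a).f ⟨⟨i.1, h⟩, i.2⟩ n else none := rfl
    rw [h0]
    by_cases h : i.1 < ξ
    · rw [dif_pos h]
      rfl
    · rw [dif_neg h]
      by_contra hc
      exact h (ha i ⟨n, fun h' => hc h'.symm⟩)
  ext i n b
  rw [key i n]

private theorem push_pull_code (ξ : Om) (r : NR Idx) (hr : Below r ξ) :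
    (fun n k => ((r n k).map (pullC ξ)).map (pushC ξ)) = r := by
  funext n k
  rcases h : r n k with _ | a
  · rfl
  · rw [Option.map_some, Option.map_some, push_pull ξ a (hr n k a h)]

private theorem mk_inj (ξ : Om) {A B : Set (NR (BB ξ) × Om × ℕ)}
    (h : (⟨ξ, cast (J_eq ξ).symm A⟩ : Idx) = ⟨ξ, cast (J_eq ξ).symm B⟩) : A = B := by
  have h1 := eq_of_heq (Sigma.mk.inj h).2
  exact (cast_inj _).1 h1

/-- for a family indexed by codes below `ξ` there is an index of level `ξ` avoiding it -/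
theorem exists_code (ξ : Om) (S : NR Idx → Om → ℕ → Idx) :
    ∃ z : Idx, z.1 = ξ ∧ ∀ r, Below r ξ → ∀ α k, S r α k ≠ z := by
  by_contra hc
  have hc' : ∀ z : Idx, z.1 = ξ → ∃ r, Below r ξ ∧ ∃ α k, S r α k = z := by
    intro z hz
    by_contra hn
    apply hc
    refine ⟨z, hz, fun r hr α k h => ?_⟩
    exact hn ⟨r, hr, α, k, h⟩
  have h1 : ∀ A : Set (NR (BB ξ) × Om × ℕ), ∃ x : NR Idx × Om × ℕ, Below x.1 ξ ∧
      S x.1 x.2.1 x.2.2 = ⟨ξ, cast (J_eq ξ).symm A⟩ := by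
    intro A
    obtain ⟨r, hr, α, k, h⟩ := hc' ⟨ξ, cast (J_eq ξ).symm A⟩ rfl
    exact ⟨(r, α, k), hr, h⟩
  choose x hx1 hx2 using h1
  let F : Set (NR (BB ξ) × Om × ℕ) → NR (BB ξ) × Om × ℕ := fun A =>
    ((fun n k => ((x A).1 n k).map (pullC ξ)), (x A).2)
  refine Function.cantor_injective F ?_
  intro A B hAB
  have h2 : (fun n k => ((x A).1 n k).map (pullC ξ)) = fun n k => ((x B).1 n k).map (pullC ξ) :=
    congrArg Prod.fst hAB
  have h3 : (x A).2 = (x B).2 := congrArg (fun y : NR (BB ξ) × Om × ℕ => y.2) hAB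
  have h4 : (x A).1 = (x B).1 := by
    rw [← push_pull_code ξ _ (hx1 A), ← push_pull_code ξ _ (hx1 B)]
    funext n k
    rw [congrFun (congrFun h2 n) k]
  have h5 : (⟨ξ, cast (J_eq ξ).symm A⟩ : Idx) = ⟨ξ, cast (J_eq ξ).symm B⟩ := by
    rw [← hx2 A, ← hx2 B, h4, h3]
  exact mk_inj ξ h5

/-- a map of the index set into the first uncountable well-order has an uncountable fibre -/
theorem exists_fibre (g : Idx → Om) : ∃ α, ¬ (g ⁻¹' {α}).Countable := by
  by_contra hc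
  have hc' : ∀ α, (g ⁻¹' {α}).Countable := by
    intro α
    by_contra hn
    exact hc ⟨α, hn⟩
  have h1 : ∀ α, ∃ f : (g ⁻¹' {α} : Set Idx) → ℕ, Function.Injective f := fun α =>
    @Countable.exists_injective_nat _ (hc' α).to_subtype
  choose e he using h1
  have hne : Nonempty Om := by
    by_contra hn
    rw [not_nonempty_iff] at hn
    exact Om.not_countable inferInstance
  obtain ⟨ξ⟩ := hne
  let G : Idx → Om × ℕ := fun i => (g i, e (g i) ⟨i, rfl⟩)
  have hG : Function.Injective G := by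
    intro i j hij
    have h2 : g i = g j := congrArg Prod.fst hij
    have h3 : e (g i) ⟨i, rfl⟩ = e (g j) ⟨j, rfl⟩ := congrArg Prod.snd hij
    have h4 : ∀ α (hα : g i = α), e (g i) ⟨i, rfl⟩ = e α ⟨i, hα⟩ := by
      rintro α rfl
      rfl
    rw [h4 (g j) h2] at h3
    have h5 := he (g j) h3
    exact congrArg Subtype.val h5
  let F : Set (NR (BB ξ) × Om × ℕ) → NR (BB ξ) × Om × ℕ := fun A =>
    ((fun _ _ => none), G ⟨ξ, cast (J_eq ξ).symm A⟩)
  refine Function.cantor_injective F ?_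
  intro A B hAB
  have h2 : G ⟨ξ, cast (J_eq ξ).symm A⟩ = G ⟨ξ, cast (J_eq ξ).symm B⟩ := congrArg Prod.snd hAB
  exact mk_inj ξ (hG h2)

end Pool.Agent.Helper64.EC
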